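import Pool.Agent.T2H32.AF.Stm

set_option autoImplicit false

namespace Pool.Agent.T2H32.AF

open Finset Pool.Agent.R920.CH

namespace AVx

/-- The sum over all choices of signs of a product. -/
theorem sum_prod (T : Finset ℕ) (F : ℕ → ℝ → ℝ) :
    ∑ e ∈ T.powerset, ∏ p ∈ T, F p (sg e p) = ∏ p ∈ T, (F p (-1) + F p 1) := by
  rw [Finset.prod_add]
  refine Finset.sum_congr rfl fun e he => ?_
  rw [Finset.mem_powerset] at he
  rw [← Finset.prod_sdiff he, mul_comm]
  congr 1
  · refine Finset.prod_congr rfl fun p hp => ?_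
    simp [sg, hp]
  · refine Finset.prod_congr rfl fun p hp => ?_
    rw [Finset.mem_sdiff] at hp
    simp [sg, hp.2]

theorem prod_eq {m : ℕ} (T : Finset ℕ) (v : Fin m → ℕ) (hv : ∀ j, v j ∈ T) (e : Finset ℕ) :
    ∏ j, sg e (v j) = ∏ p ∈ T, sg e p ^ (univ.filter fun j => v j = p).card := by
  rw [← Finset.prod_fiberwise_of_maps_to (s := univ) (t := T) (g := v) (fun j _ => hv j)]
  refine Finset.prod_congr rfl fun p _ => ?_
  rw [← Finset.prod_const]
  refine Finset.prod_congr rfl fun j hj => ?_
  rw [Finset.mem_filter] at hj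
  rw [hj.2]

end AVx

/-- Averages of products of signs. -/
theorem AV_main : AV := by
  intro m T v hv
  have h : ∑ e ∈ T.powerset, ∏ j, sg e (v j) =
      ∏ p ∈ T, ((-1 : ℝ) ^ (univ.filter fun j => v j = p).card +
        1 ^ (univ.filter fun j => v j = p).card) := by
    rw [← AVx.sum_prod T (fun p s => s ^ (univ.filter fun j => v j = p).card)]
    exact Finset.sum_congr rfl fun e _ => AVx.prod_eq T v hv e
  constructor
  · intro hev
    rw [h]
    have : ∀ p ∈ T, ((-1 : ℝ) ^ (univ.filter fun j => v j = p).card +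
        1 ^ (univ.filter fun j => v j = p).card) = 2 := by
      intro p _
      rw [(hev p).neg_one_pow, one_pow]
      norm_num
    rw [Finset.prod_congr rfl this, Finset.prod_const]
  · intro hne
    unfold Ev at hne
    push Not at hne
    obtain ⟨p, hp⟩ := hne
    have hodd : Odd (univ.filter fun j => v j = p).card := Nat.not_even_iff_odd.mp hp
    have hpT : p ∈ T := by
      have hpos : 0 < (univ.filter fun j => v j = p).card := hodd.pos
      obtain ⟨j, hj⟩ := Finset.card_pos.mp hpos
      rw [Finset.mem_filter] at hj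
      rw [← hj.2]
      exact hv j
    rw [h]
    refine Finset.prod_eq_zero hpT ?_
    rw [hodd.neg_one_pow, one_pow]
    norm_num

end Pool.Agent.T2H32.AF
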