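import Pool.Agent.T2H32.AF.Stm
import Pool.Agent.Cov.PNT

set_option autoImplicit false

namespace Pool.Agent.T2H32.AF

open Finset Filter Topology Pool.Agent.R920.CH

/-- the conclusion of the main theorem -/
def Main : Prop := ∀ n X : ℕ, 3 ≤ n → n ^ 4 ≤ X → ∀ t : ℝ, 0 < t →
    ∃ E : Finset ℤ, (E.card : ℝ) ≤ 4 * X * (2 / t ^ 2) ^ ⌊Real.log X / (4 * Real.log n)⌋₊ ∧
    ∀ f : ℤ, f ≠ 0 → |f| ≤ X → f ∉ E →
    (∀ c₁ c₂ s : ℤ, RiemannRoch n (poly2 c₁ c₂) → c₁ ^ 2 - 4 * c₂ = f * s ^ 2 → s ≠ 0 →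
      |(f : ℝ)| * Real.exp (Chebyshev.theta n - (t + 24) * √(n * Real.log X)) ≤ ((|c₁ ^ 2 - 4 * c₂| : ℤ) : ℝ)) ∧
    (∃ c₂ s : ℤ, RiemannRoch n (poly2 0 c₂) ∧ 0 ^ 2 - 4 * c₂ = f * s ^ 2 ∧ s ≠ 0 ∧
      ((|0 ^ 2 - 4 * c₂| : ℤ) : ℝ) ≤ |(f : ℝ)| * Real.exp (Chebyshev.theta n + (t + 24) * √(n * Real.log X)))

theorem cor (hM : Main) (δ ε : ℝ) (hδ : 0 < δ) (hε : 0 < ε) : ∃ n₀ : ℕ, ∀ n X : ℕ, n₀ ≤ n → n ^ 4 ≤ X →
    Real.log X ≤ (n : ℝ) ^ (1 - δ) →
    ∃ E : Finset ℤ, (E.card : ℝ) ≤ (X : ℝ) ^ (1 - δ / 32) ∧ ∀ f : ℤ, f ≠ 0 → |f| ≤ X → f ∉ E →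
    (∀ c₁ c₂ s : ℤ, RiemannRoch n (poly2 c₁ c₂) → c₁ ^ 2 - 4 * c₂ = f * s ^ 2 → s ≠ 0 →
      Real.exp ((1 - ε) * n) ≤ ((|c₁ ^ 2 - 4 * c₂| : ℤ) : ℝ)) ∧
    (∃ c₂ s : ℤ, RiemannRoch n (poly2 0 c₂) ∧ 0 ^ 2 - 4 * c₂ = f * s ^ 2 ∧ s ≠ 0 ∧
      ((|0 ^ 2 - 4 * c₂| : ℤ) : ℝ) ≤ Real.exp ((1 + ε) * n)) := by
  have hnat : Tendsto (fun x : ℕ => (x : ℝ)) atTop atTop := tendsto_natCast_atTop_atTop
  have e1 : ∀ᶠ n : ℕ in atTop, max 24 (8 / ε) ≤ (n : ℝ) ^ (δ / 4) :=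
    ((tendsto_rpow_atTop (by positivity : 0 < δ / 4)).comp hnat).eventually_ge_atTop _
  have e2 : ∀ᶠ n : ℕ in atTop, |Chebyshev.theta n / n - 1| < ε / 4 := by
    have h := (Pool.Agent.Cov.PNT.theta_div_tendsto.comp hnat)
    have h2 := (Metric.tendsto_nhds.1 h) (ε / 4) (by positivity)
    filter_upwards [h2] with n hn
    simpa [Real.dist_eq] using hn
  obtain ⟨n₀, h0⟩ := eventually_atTop.1 (e1.and (e2.and (eventually_ge_atTop 3)))
  refine ⟨n₀, fun n X hn hX hlog => ?_⟩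
  obtain ⟨a1, a2, a3⟩ := h0 n hn
  have hn0 : (0 : ℝ) < n := by positivity
  have hn3 : (3 : ℝ) ≤ n := by exact_mod_cast a3
  have hX0 : (0 : ℝ) < X := by
    have : 0 < n ^ 4 := by positivity
    exact_mod_cast lt_of_lt_of_le this hX
  set L := Real.log n with hL
  set K := Real.log X with hK
  have hL0 : 0 < L := Real.log_pos (by linarith)
  have hKL : 4 * L ≤ K := by
    have h1 : Real.log ((n : ℝ) ^ 4) ≤ Real.log X :=
      Real.log_le_log (by positivity) (by exact_mod_cast hX)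
    rw [Real.log_pow] at h1
    exact_mod_cast h1
  set t : ℝ := (n : ℝ) ^ (δ / 4) with ht
  have ht24 : 24 ≤ t := (le_max_left _ _).trans a1
  have ht8 : 8 / ε ≤ t := (le_max_right _ _).trans a1
  have ht0 : 0 < t := by linarith
  obtain ⟨E, hE, hf⟩ := hM n X a3 hX t ht0
  -- the exceptional set
  have hcard : (E.card : ℝ) ≤ (X : ℝ) ^ (1 - δ / 32) := by
    refine hE.trans ?_
    set k := ⌊K / (4 * L)⌋₊ with hk
    have hy1 : 1 ≤ K / (4 * L) := by rw [le_div_iff₀ (by positivity)]; linarith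
    have hk1 : 1 ≤ k := Nat.le_floor (by exact_mod_cast hy1)
    have hky2 : K / (8 * L) ≤ k := by
      have h1 := Nat.lt_floor_add_one (K / (4 * L))
      have h2 : (1 : ℝ) ≤ k := by exact_mod_cast hk1
      have h3 : K / (8 * L) = K / (4 * L) / 2 := by field_simp; ring
      rw [h3]
      linarith
    have h1 : 2 / t ^ 2 ≤ (1 / 4) * t⁻¹ := by
      rw [div_le_iff₀ (by positivity)]
      have : (1 / 4) * t⁻¹ * t ^ 2 = t / 4 := by field_simp
      rw [this]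
      linarith
    have h2 : (2 / t ^ 2) ^ k ≤ ((1 / 4) * t⁻¹) ^ k := pow_le_pow_left₀ (by positivity) h1 k
    have h3 : ((1 : ℝ) / 4) ^ k ≤ 1 / 4 := by
      calc ((1 : ℝ) / 4) ^ k ≤ (1 / 4) ^ 1 := pow_le_pow_of_le_one (by norm_num) (by norm_num) hk1
        _ = 1 / 4 := pow_one _
    have h4 : (t⁻¹) ^ k ≤ Real.exp (-(δ / 32 * K)) := by
      have h5 : t⁻¹ = Real.exp (-(δ / 4 * L)) := by
        rw [ht, Real.rpow_def_of_pos hn0, ← Real.exp_neg]
        congr 1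
        rw [← hL]; ring
      rw [h5, ← Real.exp_nat_mul]
      apply Real.exp_le_exp.2
      have h6 : K ≤ 8 * L * k := by
        have := (div_le_iff₀ (show 0 < 8 * L by positivity)).1 hky2
        linarith
      nlinarith
    have h7 : (X : ℝ) ^ (1 - δ / 32) = X * Real.exp (-(δ / 32 * K)) := by
      have hXe : (X : ℝ) = Real.exp K := by rw [hK, Real.exp_log hX0]
      rw [Real.rpow_def_of_pos hX0, ← hK, hXe, ← Real.exp_add]
      congr 1
      ring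
    rw [h7]
    have h8 : (2 / t ^ 2) ^ k ≤ (1 / 4) * Real.exp (-(δ / 32 * K)) := by
      refine h2.trans ?_
      rw [mul_pow]
      exact mul_le_mul h3 h4 (by positivity) (by norm_num)
    calc 4 * X * (2 / t ^ 2) ^ k ≤ 4 * X * ((1 / 4) * Real.exp (-(δ / 32 * K))) :=
          mul_le_mul_of_nonneg_left h8 (by positivity)
      _ = X * Real.exp (-(δ / 32 * K)) := by ring
  -- the error term
  have hK0 : 0 < K := by linarith
  have hsq : √(n * K) ≤ (n : ℝ) ^ (1 - δ / 2) := by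
    rw [Real.sqrt_le_left (by positivity)]
    calc (n : ℝ) * K ≤ n * (n : ℝ) ^ (1 - δ) := mul_le_mul_of_nonneg_left hlog hn0.le
      _ = ((n : ℝ) ^ (1 - δ / 2)) ^ 2 := by
          rw [← Real.rpow_natCast, ← Real.rpow_mul hn0.le]
          nth_rewrite 1 [← Real.rpow_one (n : ℝ)]
          rw [← Real.rpow_add hn0]
          congr 1
          push_cast
          ring
  have htt : t * t * (n : ℝ) ^ (1 - δ / 2) = n := by
    rw [ht, ← Real.rpow_add hn0, ← Real.rpow_add hn0]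
    conv_rhs => rw [← Real.rpow_one (n : ℝ)]
    congr 1
    ring
  have herr : (t + 24) * √(n * K) ≤ ε / 4 * n := by
    have h1 : (t + 24) * √(n * K) ≤ 2 * t * (n : ℝ) ^ (1 - δ / 2) :=
      mul_le_mul (by linarith) hsq (Real.sqrt_nonneg _) (by positivity)
    refine h1.trans ?_
    have h2 : 2 ≤ ε / 4 * t := by
      have := (div_le_iff₀ hε).1 ht8
      linarith
    have h3 : 0 ≤ t * (n : ℝ) ^ (1 - δ / 2) := by positivity
    calc 2 * t * (n : ℝ) ^ (1 - δ / 2) = 2 * (t * (n : ℝ) ^ (1 - δ / 2)) := by ring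
      _ ≤ (ε / 4 * t) * (t * (n : ℝ) ^ (1 - δ / 2)) := mul_le_mul_of_nonneg_right h2 h3
      _ = ε / 4 * (t * t * (n : ℝ) ^ (1 - δ / 2)) := by ring
      _ = ε / 4 * n := by rw [htt]
  have hKε : K ≤ ε / 4 * n := by
    -- `K ≤ √(n K)` when `K ≤ n`
    have hKn : K ≤ n := by
      refine hlog.trans ?_
      calc (n : ℝ) ^ (1 - δ) ≤ (n : ℝ) ^ (1 : ℝ) :=
            Real.rpow_le_rpow_of_exponent_le (by linarith) (by linarith)
        _ = n := Real.rpow_one _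
    have h1 : K ≤ √(n * K) := by
      apply Real.le_sqrt_of_sq_le
      nlinarith
    have h2 : √(n * K) ≤ (t + 24) * √(n * K) := by
      have := Real.sqrt_nonneg (n * K)
      nlinarith
    linarith
  have hth : |Chebyshev.theta n - n| ≤ ε / 4 * n := by
    have h1 : Chebyshev.theta n - n = (Chebyshev.theta n / n - 1) * n := by field_simp
    rw [h1, abs_mul, abs_of_pos hn0]
    exact mul_le_mul_of_nonneg_right a2.le hn0.le
  have hth' := abs_le.1 hth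
  refine ⟨E, hcard, fun f hf0 hfX hfE => ?_⟩
  obtain ⟨g1, g2⟩ := hf f hf0 hfX hfE
  have hf1 : (1 : ℝ) ≤ |(f : ℝ)| := by
    have : (1 : ℤ) ≤ |f| := Int.one_le_abs hf0
    exact_mod_cast this
  have hf2 : |(f : ℝ)| ≤ Real.exp K := by
    rw [hK, Real.exp_log hX0]
    exact_mod_cast hfX
  constructor
  · intro c₁ c₂ s h1 h2 h3
    refine le_trans ?_ (g1 c₁ c₂ s h1 h2 h3)
    have h4 : Real.exp ((1 - ε) * n) ≤ Real.exp (Chebyshev.theta n - (t + 24) * √(n * K)) := by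
      apply Real.exp_le_exp.2
      nlinarith [hth'.1]
    have h5 := Real.exp_pos (Chebyshev.theta n - (t + 24) * √(n * K))
    nlinarith
  · obtain ⟨c₂, s, h1, h2, h3, h4⟩ := g2
    refine ⟨c₂, s, h1, h2, h3, h4.trans ?_⟩
    calc |(f : ℝ)| * Real.exp (Chebyshev.theta n + (t + 24) * √(n * K)) ≤
        Real.exp K * Real.exp (Chebyshev.theta n + (t + 24) * √(n * K)) :=
          mul_le_mul_of_nonneg_right hf2 (Real.exp_pos _).le
      _ = Real.exp (K + (Chebyshev.theta n + (t + 24) * √(n * K))) := by rw [Real.exp_add K]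
      _ ≤ Real.exp ((1 + ε) * n) := by
          apply Real.exp_le_exp.2
          nlinarith [hth'.2]

end Pool.Agent.T2H32.AF
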