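import Pool.Agent.T2H32.AF.Stm

set_option autoImplicit false

/-!
# Package JS: sums of products of Jacobi symbols
-/

namespace Pool.Agent.T2H32.AF

open Finset

namespace JSx

/-- the product of the symbols -/
noncomputable def g {m : ℕ} (v : Fin m → ℕ) (a : ℤ) : ℝ := ∏ j, (jacobiSym a (v j) : ℝ)

lemma g_abs {m : ℕ} (v : Fin m → ℕ) (a : ℤ) : |g v a| ≤ 1 := by
  unfold g
  rw [Finset.abs_prod]
  refine Finset.prod_le_one (fun j _ => abs_nonneg _) fun j _ => ?_
  rcases jacobiSym.trichotomy a (v j) with h | h | h <;> rw [h] <;> norm_num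

lemma g_mul {m : ℕ} (v : Fin m → ℕ) (a b : ℤ) : g v (a * b) = g v a * g v b := by
  unfold g
  rw [← Finset.prod_mul_distrib]
  refine Finset.prod_congr rfl fun j _ => ?_
  rw [jacobiSym.mul_left]
  push_cast
  ring

lemma g_congr {m : ℕ} (v : Fin m → ℕ) (a b : ℤ) (h : ((∏ j, v j : ℕ) : ℤ) ∣ a - b) :
    g v a = g v b := by
  unfold g
  refine Finset.prod_congr rfl fun j _ => ?_
  have h1 : ((v j : ℕ) : ℤ) ∣ a - b := by
    refine dvd_trans ?_ h
    exact_mod_cast Finset.dvd_prod_of_mem v (mem_univ j)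
  have h2 : a % (v j : ℤ) = b % (v j : ℤ) := (Int.emod_emod_of_dvd _ dvd_rfl ▸
    (Int.emod_emod_of_dvd a (dvd_refl (v j : ℤ))).symm ▸ (Int.emod_eq_emod_iff_emod_sub_eq_zero.2
      (Int.emod_eq_zero_of_dvd h1)))
  rw [jacobiSym.mod_left' h2]

lemma nonres (p : ℕ) (hp : p.Prime) (h2 : p ≠ 2) : ∃ r : ℕ, jacobiSym (r : ℤ) p = -1 := by
  haveI : Fact p.Prime := ⟨hp⟩
  obtain ⟨a, ha⟩ := quadraticChar_exists_neg_one (F := ZMod p) (by
    rw [ZMod.ringChar_zmod_n]
    exact h2)
  refine ⟨a.val, ?_⟩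
  rw [← jacobiSym.legendreSym.to_jacobiSym, legendreSym]
  simpa using ha

lemma exists_unit {m : ℕ} (n : ℕ) (v : Fin m → ℕ) (hv : ∀ j, v j ∈ OP n) (hE : ¬ Ev v) :
    ∃ u : ℕ, Nat.Coprime u (∏ j, v j) ∧ g v (u : ℤ) = -1 := by
  have hpr : ∀ j, (v j).Prime ∧ v j ≠ 2 := fun j => (Finset.mem_filter.1 (hv j)).2
  unfold Ev at hE
  push Not at hE
  obtain ⟨p, hp⟩ := hE
  have hne : (univ.filter fun j => v j = p).Nonempty := by
    rw [Finset.nonempty_iff_ne_empty]
    intro h
    rw [h] at hp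
    exact hp (by simp)
  obtain ⟨j0, hj0⟩ := hne
  have hj0' : v j0 = p := (Finset.mem_filter.1 hj0).2
  have hpp : p.Prime ∧ p ≠ 2 := hj0' ▸ hpr j0
  obtain ⟨r, hr⟩ := nonres p hpp.1 hpp.2
  set M := ∏ j ∈ univ.filter (fun j => v j ≠ p), v j with hM
  have hcop : Nat.Coprime p M := by
    refine Nat.Coprime.prod_right fun j hj => ?_
    exact (Nat.coprime_primes hpp.1 (hpr j).1).2 (Ne.symm (Finset.mem_filter.1 hj).2)
  obtain ⟨u, hu1, hu2⟩ := Nat.chineseRemainder hcop r 1
  have hJp : jacobiSym (u : ℤ) p = -1 := by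
    rw [← hr]
    refine jacobiSym.mod_left' ?_
    exact_mod_cast hu1
  have hJq : ∀ j, v j ≠ p → jacobiSym (u : ℤ) (v j) = 1 := by
    intro j hj
    have h1 : v j ∣ M := Finset.dvd_prod_of_mem v (Finset.mem_filter.2 ⟨mem_univ j, hj⟩)
    have h2 : u ≡ 1 [MOD v j] := hu2.of_dvd h1
    rw [jacobiSym.mod_left' (a₂ := 1) (by exact_mod_cast h2), jacobiSym.one_left]
  have hg : g v (u : ℤ) = -1 := by
    unfold g
    rw [← Finset.prod_filter_mul_prod_filter_not univ (fun j => v j = p)]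
    have h1 : ∏ j ∈ univ.filter (fun j => v j = p), (jacobiSym (u : ℤ) (v j) : ℝ) =
        (-1) ^ (univ.filter fun j => v j = p).card := by
      rw [← Finset.prod_const]
      refine Finset.prod_congr rfl fun j hj => ?_
      rw [(Finset.mem_filter.1 hj).2, hJp]
      norm_num
    have h2 : ∏ j ∈ univ.filter (fun j => ¬ v j = p), (jacobiSym (u : ℤ) (v j) : ℝ) = 1 := by
      refine Finset.prod_eq_one fun j hj => ?_
      rw [hJq j (Finset.mem_filter.1 hj).2]
      norm_num
    rw [h1, h2, mul_one]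
    exact (Nat.not_even_iff_odd.1 hp).neg_one_pow
  refine ⟨u, ?_, hg⟩
  refine Nat.Coprime.prod_right fun j _ => ?_
  by_contra hcon
  have h0 : jacobiSym (u : ℤ) (v j) = 0 := by
    haveI : NeZero (v j) := ⟨(hpr j).1.ne_zero⟩
    rw [jacobiSym.eq_zero_iff_not_coprime]
    simpa [Int.gcd_natCast_natCast] using hcon
  have : g v (u : ℤ) = 0 := by
    unfold g
    refine Finset.prod_eq_zero (mem_univ j) ?_
    rw [h0]
    norm_num
  rw [hg] at this
  norm_num at this

lemma periodic_bound (N : ℕ) (hN : 0 < N) (h : ℕ → ℝ) (hb : ∀ f, |h f| ≤ 1)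
    (hper : ∀ f, h (N + f) = h f) (hs : ∑ f ∈ range N, h f = 0) :
    ∀ X : ℕ, |∑ f ∈ range X, h f| ≤ N := by
  intro X
  induction X using Nat.strong_induction_on with
  | _ X ih =>
    by_cases hX : X < N
    · calc |∑ f ∈ range X, h f| ≤ ∑ f ∈ range X, |h f| := Finset.abs_sum_le_sum_abs _ _
        _ ≤ ∑ f ∈ range X, 1 := Finset.sum_le_sum fun f _ => hb f
        _ = X := by simp
        _ ≤ N := by exact_mod_cast hX.le
    · push Not at hX
      obtain ⟨Y, rfl⟩ := Nat.exists_eq_add_of_le hX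
      rw [Finset.sum_range_add, hs, zero_add, Finset.sum_congr rfl fun f _ => hper f]
      exact ih Y (by omega)

lemma sum_zmod (N : ℕ) [NeZero N] (F : ZMod N → ℝ) :
    ∑ f ∈ range N, F (f : ZMod N) = ∑ x : ZMod N, F x := by
  refine Finset.sum_nbij' (fun f => (f : ZMod N)) (fun x => x.val) ?_ ?_ ?_ ?_ ?_
  · intro f _
    exact mem_univ _
  · intro x _
    exact mem_range.2 (ZMod.val_lt x)
  · intro f hf
    exact ZMod.val_natCast_of_lt (mem_range.1 hf)
  · intro x _
    exact ZMod.natCast_zmod_val x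
  · intro f _
    rfl

end JSx

open JSx in
theorem JS_main : JS := by
  intro n m v hv hE X σ hσ
  have hpr : ∀ j, (v j).Prime ∧ v j ≠ 2 := fun j => (Finset.mem_filter.1 (hv j)).2
  have hle : ∀ j, v j ≤ n := fun j => (Finset.mem_Icc.1 (Finset.mem_filter.1 (hv j)).1).2
  set N := ∏ j, v j with hN
  have hN0 : 0 < N := Finset.prod_pos fun j _ => (hpr j).1.pos
  haveI : NeZero N := ⟨hN0.ne'⟩
  obtain ⟨u, hu, hgu⟩ := exists_unit n v hv hE
  -- the function on ZMod N
  set F : ZMod N → ℝ := fun x => g v (x.val : ℤ) with hF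
  have hFa : ∀ a : ℤ, F (a : ZMod N) = g v a := by
    intro a
    refine g_congr v _ _ ?_
    rw [← hN]
    have h1 : (((((a : ZMod N)).val : ℤ) - a : ℤ) : ZMod N) = 0 := by
      push_cast
      rw [ZMod.natCast_zmod_val]
      ring
    exact (ZMod.intCast_zmod_eq_zero_iff_dvd _ N).1 h1
  have hsum0 : ∑ x : ZMod N, F x = 0 := by
    have h1 : ∑ x : ZMod N, F (((ZMod.unitOfCoprime u hu : (ZMod N)ˣ) : ZMod N) * x) =
        ∑ x : ZMod N, F x := Equiv.sum_comp (Units.mulLeft (ZMod.unitOfCoprime u hu)) F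
    have h2 : ∀ x : ZMod N, F (((ZMod.unitOfCoprime u hu : (ZMod N)ˣ) : ZMod N) * x) = - F x := by
      intro x
      have h3 : ((ZMod.unitOfCoprime u hu : (ZMod N)ˣ) : ZMod N) * x =
          (((u : ℤ) * (x.val : ℤ) : ℤ) : ZMod N) := by
        rw [ZMod.coe_unitOfCoprime]
        push_cast
        rw [ZMod.natCast_zmod_val]
      rw [h3, hFa, g_mul, hgu]
      simp [hF]
    rw [Finset.sum_congr rfl fun x _ => h2 x, Finset.sum_neg_distrib] at h1
    linarith
  have hkey := periodic_bound N hN0 (fun f => g v (σ * ((f : ℤ) + 1))) (fun f => g_abs v _)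
    (by
      intro f
      refine g_congr v _ _ ?_
      rw [← hN]
      push_cast
      exact ⟨σ, by ring⟩)
    (by
      have h1 : ∀ f ∈ range N, g v (σ * ((f : ℤ) + 1)) =
          (fun x : ZMod N => F ((σ : ZMod N) * (x + 1))) (f : ZMod N) := by
        intro f _
        rw [← hFa]
        simp only []
        congr 1
        push_cast
        ring
      rw [Finset.sum_congr rfl h1, sum_zmod N (fun x : ZMod N => F ((σ : ZMod N) * (x + 1)))]
      rcases hσ with rfl | rfl
      · simp only [Int.cast_one, one_mul]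
        exact (Equiv.sum_comp (Equiv.addRight (1 : ZMod N)) F).trans hsum0
      · have h2 : ∀ x : ZMod N, F (((-1 : ℤ) : ZMod N) * (x + 1)) =
            F (((Equiv.addRight (1 : ZMod N)).trans (Equiv.neg (ZMod N))) x) := by
          intro x
          congr 1
          simp
        rw [Finset.sum_congr rfl fun x _ => h2 x]
        exact (Equiv.sum_comp ((Equiv.addRight (1 : ZMod N)).trans (Equiv.neg (ZMod N))) F).trans
          hsum0) X
  have h4 : ∀ X : ℕ, ∑ f ∈ Icc 1 X, ∏ j, (jacobiSym (σ * (f : ℤ)) (v j) : ℝ) =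
      ∑ f ∈ range X, g v (σ * ((f : ℤ) + 1)) := by
    intro X
    induction X with
    | zero => simp
    | succ X ih =>
      rw [Finset.sum_Icc_succ_top (by omega), Finset.sum_range_succ, ih]
      unfold g
      push_cast
      rfl
  rw [h4]
  refine le_trans hkey ?_
  rw [hN]
  push_cast
  calc (∏ j, (v j : ℝ)) ≤ ∏ j : Fin m, (n : ℝ) :=
        Finset.prod_le_prod (fun j _ => Nat.cast_nonneg _) fun j _ => by exact_mod_cast hle j
    _ = (n : ℝ) ^ m := by simp

end Pool.Agent.T2H32.AF
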