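import Pool.Agent.T2H32.AF.Stm

set_option autoImplicit false

namespace Pool.Agent.T2H32.AF

open Finset Pool.Agent.R920.CH

namespace KHx

/-- The sum over all choices of signs of a product. -/
theorem sum_prod (T : Finset ℕ) (F : ℕ → ℝ → ℝ) :
    ∑ e ∈ T.powerset, ∏ p ∈ T, F p (sg e p) = ∏ p ∈ T, (F p (-1) + F p 1) := by
  rw [Finset.prod_add]
  refine Finset.sum_congr rfl fun e he => ?_
  rw [Finset.mem_powerset] at he
  rw [← Finset.prod_sdiff he, mul_comm]
  congr 1
  · refine Finset.prod_congr rfl fun p hp => ?_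
    simp [sg, hp]
  · refine Finset.prod_congr rfl fun p hp => ?_
    rw [Finset.mem_sdiff] at hp
    simp [sg, hp.2]

theorem pow_le_cosh (k : ℕ) (y : ℝ) : y ^ (2 * k) ≤ ((2 * k).factorial : ℝ) * Real.cosh y := by
  have h := Real.hasSum_cosh y
  have h2 : y ^ (2 * k) / ((2 * k).factorial : ℝ) ≤ Real.cosh y :=
    le_hasSum h k (fun j _ => by
      have : 0 ≤ y ^ (2 * j) := (even_two_mul j).pow_nonneg y
      positivity)
  rw [div_le_iff₀ (by positivity)] at h2
  linarith

theorem sum_exp (T : Finset ℕ) (a : ℕ → ℝ) (t : ℝ) :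
    ∑ e ∈ T.powerset, Real.exp (t * ∑ p ∈ T, a p * sg e p) ≤
      2 ^ T.card * Real.exp (t ^ 2 * (∑ p ∈ T, a p ^ 2) / 2) := by
  have h1 : ∀ e, Real.exp (t * ∑ p ∈ T, a p * sg e p) =
      ∏ p ∈ T, Real.exp (t * (a p * sg e p)) := by
    intro e
    rw [Finset.mul_sum, Real.exp_sum]
  simp only [h1]
  rw [sum_prod T (fun p s => Real.exp (t * (a p * s)))]
  have h2 : ∀ p ∈ T, Real.exp (t * (a p * -1)) + Real.exp (t * (a p * 1)) ≤
      2 * Real.exp ((t * a p) ^ 2 / 2) := by
    intro p _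
    have h3 := Real.cosh_le_exp_half_sq (t * a p)
    have h4 : Real.exp (t * (a p * -1)) + Real.exp (t * (a p * 1)) = 2 * Real.cosh (t * a p) := by
      rw [Real.cosh_eq]
      have e1 : t * (a p * -1) = -(t * a p) := by ring
      have e2 : t * (a p * 1) = t * a p := by ring
      rw [e1, e2]
      ring
    rw [h4]
    linarith
  refine (Finset.prod_le_prod (fun p _ => by positivity) h2).trans (le_of_eq ?_)
  rw [Finset.prod_mul_distrib, Finset.prod_const, ← Real.exp_sum]
  congr 2
  rw [Finset.mul_sum, Finset.sum_div]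
  refine Finset.sum_congr rfl fun p _ => ?_
  ring

end KHx

/-- Khintchine's inequality. -/
theorem KH_main : KH := by
  intro k hk T a
  set σ := ∑ p ∈ T, a p ^ 2 with hσ
  have hσ0 : 0 ≤ σ := Finset.sum_nonneg fun p _ => sq_nonneg _
  rcases hσ0.eq_or_lt with h0 | hpos
  · have hz : ∀ p ∈ T, a p = 0 := by
      intro p hp
      have := (Finset.sum_eq_zero_iff_of_nonneg (fun p _ => sq_nonneg (a p))).1 h0.symm p hp
      exact pow_eq_zero_iff (two_ne_zero) |>.1 this
    have hs : ∀ e, ∑ p ∈ T, a p * sg e p = 0 := by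
      intro e
      refine Finset.sum_eq_zero fun p hp => ?_
      rw [hz p hp, zero_mul]
    simp only [hs]
    rw [zero_pow (by omega : 2 * k ≠ 0), Finset.sum_const_zero]
    positivity
  · have hk' : (0 : ℝ) < k := by exact_mod_cast hk
    set t := Real.sqrt (2 * k / σ) with ht
    have ht2 : t ^ 2 = 2 * k / σ := Real.sq_sqrt (by positivity)
    have htp : 0 < t := Real.sqrt_pos.mpr (by positivity)
    have hterm : ∀ e ∈ T.powerset, (∑ p ∈ T, a p * sg e p) ^ (2 * k) ≤
        ((2 * k).factorial : ℝ) / t ^ (2 * k) *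
          ((Real.exp (t * ∑ p ∈ T, a p * sg e p) + Real.exp (-t * ∑ p ∈ T, a p * sg e p)) / 2) := by
      intro e _
      have h := KHx.pow_le_cosh k (t * ∑ p ∈ T, a p * sg e p)
      rw [mul_pow, Real.cosh_eq, ← neg_mul] at h
      rw [div_mul_eq_mul_div, le_div_iff₀ (by positivity), mul_comm]
      exact h
    have hsum := Finset.sum_le_sum hterm
    rw [← Finset.mul_sum, ← Finset.sum_div, Finset.sum_add_distrib] at hsum
    have h1 := KHx.sum_exp T a t
    have h2 := KHx.sum_exp T a (-t)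
    rw [← hσ] at h1 h2
    rw [neg_sq] at h2
    have e1 : t ^ 2 * σ / 2 = k := by
      rw [ht2]
      field_simp
    rw [e1] at h1 h2
    have h3 : (∑ e ∈ T.powerset, Real.exp (t * ∑ p ∈ T, a p * sg e p) +
        ∑ e ∈ T.powerset, Real.exp (-t * ∑ p ∈ T, a p * sg e p)) / 2 ≤ 2 ^ T.card * Real.exp k := by
      linarith
    have h4 : ((2 * k).factorial : ℝ) / t ^ (2 * k) ≤ (2 * k) ^ k * σ ^ k := by
      rw [pow_mul, ht2, div_pow, div_div_eq_mul_div, div_le_iff₀ (by positivity)]
      have h5 : ((2 * k).factorial : ℝ) ≤ (2 * k : ℝ) ^ (2 * k) := by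
        have := Nat.factorial_le_pow (2 * k)
        have h6 : (((2 * k).factorial : ℕ) : ℝ) ≤ (((2 * k) ^ (2 * k) : ℕ) : ℝ) := by exact_mod_cast this
        push_cast at h6
        exact h6
      have e3 : (2 * (k : ℝ)) ^ (2 * k) = (2 * k) ^ k * (2 * k) ^ k := by
        rw [← pow_add]
        congr 1
        ring
      rw [e3] at h5
      calc ((2 * k).factorial : ℝ) * σ ^ k ≤ ((2 * k) ^ k * (2 * k) ^ k) * σ ^ k :=
            mul_le_mul_of_nonneg_right h5 (by positivity)
        _ = _ := by ring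
    calc _ ≤ _ := hsum
      _ ≤ ((2 * k) ^ k * σ ^ k) * (2 ^ T.card * Real.exp k) :=
          mul_le_mul h4 h3 (by positivity) (by positivity)
      _ = 2 ^ T.card * (2 * Real.exp 1 * k * σ) ^ k := by
          have e4 : Real.exp (k : ℝ) = Real.exp 1 ^ k := by
            rw [← Real.exp_nat_mul, mul_one]
          rw [e4]
          ring

end Pool.Agent.T2H32.AF
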