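import Pool.Agent.T2H32.AF.Stm2

set_option autoImplicit false

/-! Package LO: the lower bound for the discriminants. -/

namespace Pool.Agent.T2H32.AF

open Finset Pool.Agent.R920.CH

namespace LOx

open Classical in
lemma jac (f : ℤ) (p : ℕ) (hp : p.Prime) (hp2 : p ≠ 2) :
    (1 : ℝ) - (jacobiSym f p : ℝ) =
      (if Pool.Agent.T2H43.RR.Inert f p then 2 else 0) + (if (p : ℤ) ∣ f then 1 else 0) := by
  have := Fact.mk hp
  rw [← jacobiSym.legendreSym.to_jacobiSym]
  by_cases h : (p : ℤ) ∣ f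
  · have h0 : legendreSym p f = 0 := by
      rw [legendreSym.eq_zero_iff]
      exact (ZMod.intCast_zmod_eq_zero_iff_dvd f p).2 h
    have h1 : ¬ Pool.Agent.T2H43.RR.Inert f p := fun h' => h'.2.1 h
    rw [h0, if_neg h1, if_pos h]
    norm_num
  · have hne : ((f : ℤ) : ZMod p) ≠ 0 := fun h' => h ((ZMod.intCast_zmod_eq_zero_iff_dvd f p).1 h')
    by_cases h2 : ∃ t : ℤ, (p : ℤ) ∣ f - t ^ 2
    · have h1 : ¬ Pool.Agent.T2H43.RR.Inert f p := fun h' => h'.2.2 h2
      have h0 : legendreSym p f = 1 := by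
        rw [legendreSym.eq_one_iff p hne]
        obtain ⟨t, ht⟩ := h2
        have h3 := (ZMod.intCast_zmod_eq_zero_iff_dvd (f - t ^ 2) p).2 ht
        refine ⟨(t : ZMod p), ?_⟩
        push_cast at h3
        linear_combination h3
      rw [h0, if_neg h1, if_neg h]
      norm_num
    · have h1 : Pool.Agent.T2H43.RR.Inert f p := ⟨hp2, h, h2⟩
      have h0 : legendreSym p f = -1 := by
        rw [legendreSym.eq_neg_one_iff]
        rintro ⟨r, hr⟩
        apply h2
        refine ⟨(r.val : ℤ), ?_⟩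
        rw [← ZMod.intCast_zmod_eq_zero_iff_dvd]
        push_cast
        rw [ZMod.natCast_zmod_val, hr]
        ring
      rw [h0, if_pos h1, if_neg h]
      norm_num

open Classical in
lemma two_inert (n : ℕ) (f : ℤ) :
    ∑ p ∈ OP n, Real.log p - SL n f = 2 * ∑ p ∈ Pool.Agent.T2H43.RR.inertS f n, Real.log p +
      ∑ p ∈ (OP n).filter (fun p : ℕ => (p : ℤ) ∣ f), Real.log p := by
  have e1 : Pool.Agent.T2H43.RR.inertS f n = (OP n).filter (fun p => Pool.Agent.T2H43.RR.Inert f p) := by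
    ext p
    simp only [Pool.Agent.T2H43.RR.inertS, OP, mem_filter, mem_Icc]
    constructor
    · rintro ⟨h1, h2, h3⟩
      exact ⟨⟨h1, h2, h3.1⟩, h3⟩
    · rintro ⟨⟨h1, h2, _⟩, h3⟩
      exact ⟨h1, h2, h3⟩
  rw [e1, sum_filter, sum_filter, SL, ← sum_sub_distrib, mul_sum, ← sum_add_distrib]
  refine sum_congr rfl fun p hp => ?_
  simp only [OP, mem_filter] at hp
  have h := jac f p hp.2.1 hp.2.2
  calc Real.log p - (jacobiSym f p : ℝ) * Real.log p = ((1 : ℝ) - (jacobiSym f p : ℝ)) * Real.log p := by ring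
    _ = _ := by
      rw [h]
      split_ifs <;> ring

lemma sum_log_le (P : Finset ℕ) (hP : ∀ p ∈ P, p.Prime) (m : ℤ) (hm : m ≠ 0) (hd : ∀ p ∈ P, (p : ℤ) ∣ m) :
    ∑ p ∈ P, Real.log p ≤ Real.log |(m : ℝ)| := by
  have h1 : (∏ p ∈ P, p) ∣ m.natAbs := by
    apply Finset.prod_primes_dvd
    · intro p hp
      exact (hP p hp).prime
    · intro p hp
      exact Int.natCast_dvd.1 (hd p hp)
  have h2 : ∑ p ∈ P, Real.log p = Real.log ((∏ p ∈ P, p : ℕ) : ℝ) := by
    push_cast
    rw [Real.log_prod]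
    intro p hp
    exact_mod_cast (hP p hp).ne_zero
  have h3 : |(m : ℝ)| = (m.natAbs : ℝ) := by
    rw [Nat.cast_natAbs]
    push_cast
    rfl
  rw [h2, h3]
  apply Real.log_le_log
  · exact_mod_cast prod_pos fun p hp => (hP p hp).pos
  · exact_mod_cast Nat.le_of_dvd (Int.natAbs_pos.2 hm) h1

lemma theta_le (n : ℕ) : Chebyshev.theta n ≤ Real.log 2 + ∑ p ∈ OP n, Real.log p := by
  rw [Chebyshev.theta_eq_sum_Icc, Nat.floor_natCast]
  have h2 : (2 : ℕ) ∉ OP n := by
    simp [OP]
  have h3 : (Icc 0 n).filter (fun p => p.Prime) ⊆ insert 2 (OP n) := by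
    intro p hp
    simp only [OP, mem_filter, mem_Icc, mem_insert] at hp ⊢
    by_cases h : p = 2
    · exact Or.inl h
    · exact Or.inr ⟨⟨hp.2.one_le, hp.1.2⟩, hp.2, h⟩
  refine (sum_le_sum_of_subset_of_nonneg h3 fun p hp _ => ?_).trans ?_
  · exact Real.log_natCast_nonneg p
  · rw [sum_insert h2]
    norm_num

lemma inert_pred (n : ℕ) (hn : 1 ≤ n) (f : ℤ) :
    ∑ p ∈ Pool.Agent.T2H43.RR.inertS f n, Real.log p ≤
      Real.log n + ∑ p ∈ Pool.Agent.T2H43.RR.inertS f (n - 1), Real.log p := by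
  classical
  have h2 : n ∉ Pool.Agent.T2H43.RR.inertS f (n - 1) := by
    simp only [Pool.Agent.T2H43.RR.inertS, mem_filter, mem_Icc]
    rintro ⟨h, _⟩
    omega
  have h3 : Pool.Agent.T2H43.RR.inertS f n ⊆ insert n (Pool.Agent.T2H43.RR.inertS f (n - 1)) := by
    intro p hp
    simp only [Pool.Agent.T2H43.RR.inertS, mem_filter, mem_Icc, mem_insert] at hp ⊢
    by_cases h : p = n
    · exact Or.inl h
    · exact Or.inr ⟨⟨hp.1.1, by omega⟩, hp.2⟩
  refine (sum_le_sum_of_subset_of_nonneg h3 fun p hp _ => ?_).trans ?_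
  · exact Real.log_natCast_nonneg p
  · rw [sum_insert h2]

end LOx

open LOx in
theorem LOt_main : LOt := by
  intro n X hn hX t ht f hf hfX hSL c₁ c₂ s hRR hfs hs
  classical
  set E := √((n : ℝ) * Real.log X) with hE
  have hs1 : (1 : ℝ) ≤ |(s : ℝ)| := by exact_mod_cast Int.one_le_abs hs
  have hD : ((|c₁ ^ 2 - 4 * c₂| : ℤ) : ℝ) = |(f : ℝ)| * |(s : ℝ)| ^ 2 := by
    rw [hfs]
    push_cast
    rw [abs_mul, abs_pow]
  rw [hD]
  apply mul_le_mul_of_nonneg_left _ (abs_nonneg _)
  have hn3 : (3 : ℝ) ≤ n := by exact_mod_cast hn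
  have hlogn : 1 ≤ Real.log n := by
    rw [Real.le_log_iff_exp_le (by linarith)]
    linarith [Real.exp_one_lt_d9]
  have hXn : (n : ℝ) ^ 4 ≤ X := by exact_mod_cast hX
  have hlogX : 4 * Real.log n ≤ Real.log X := by
    have h := Real.log_le_log (by positivity) hXn
    rw [Real.log_pow] at h
    exact_mod_cast h
  have hlogs : 0 ≤ Real.log |(s : ℝ)| := Real.log_nonneg hs1
  have key : Chebyshev.theta n - (t + 24) * E ≤ 2 * Real.log |(s : ℝ)| := by
    by_cases hc : (n : ℝ) < Real.log X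
    · have h1 : (n : ℝ) ≤ E := by
        rw [hE]
        apply Real.le_sqrt_of_sq_le
        nlinarith
      have h2 := Chebyshev.theta_le_log4_mul_x (x := (n : ℝ)) (by linarith)
      have h3 : Real.log 4 ≤ 2 := by
        have h : Real.log 4 = 2 * Real.log 2 := by
          rw [show (4 : ℝ) = 2 ^ 2 by norm_num, Real.log_pow]
          norm_num
        rw [h]
        linarith [Real.log_two_lt_d9]
      have h4 : 0 ≤ t * E := mul_nonneg ht (by linarith)
      nlinarith
    · rw [not_lt] at hc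
      have h1 : Real.log X ≤ E := by
        rw [hE]
        apply Real.le_sqrt_of_sq_le
        nlinarith
      have h2 := two_inert n f
      have h3 := theta_le n
      have h4 := inert_pred n (by omega) f
      have h5 : ∑ p ∈ Pool.Agent.T2H43.RR.inertS f (n - 1), Real.log p ≤ Real.log |(s : ℝ)| := by
        apply sum_log_le _ _ s hs
        · intro p hp
          simp only [Pool.Agent.T2H43.RR.inertS, mem_filter, mem_Icc] at hp
          exact Pool.Agent.T2H43.RR.inert_dvd hRR hfs p hp.2.1 (by omega) hp.2.2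
        · intro p hp
          simp only [Pool.Agent.T2H43.RR.inertS, mem_filter, mem_Icc] at hp
          exact hp.2.1
      have h6 : ∑ p ∈ (OP n).filter (fun p : ℕ => (p : ℤ) ∣ f), Real.log p ≤ Real.log |(f : ℝ)| := by
        apply sum_log_le _ _ f hf
        · intro p hp
          rw [mem_filter] at hp
          exact hp.2
        · intro p hp
          simp only [OP, mem_filter] at hp
          exact hp.1.2.1
      have h7 : Real.log |(f : ℝ)| ≤ Real.log X := by
        apply Real.log_le_log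
        · exact abs_pos.2 (by exact_mod_cast hf)
        · exact_mod_cast hfX
      have h8 := (abs_le.1 hSL).2
      have h9 : Real.log 2 ≤ 1 := by linarith [Real.log_two_lt_d9]
      linarith
  calc Real.exp (Chebyshev.theta n - (t + 24) * E) ≤ Real.exp (2 * Real.log |(s : ℝ)|) := Real.exp_le_exp.2 key
    _ = |(s : ℝ)| ^ 2 := by
      rw [two_mul, Real.exp_add, Real.exp_log (by linarith)]
      ring

theorem LO_main : LO := by
  intro n X hn hX f hf hfX hSL c₁ c₂ s hRR hfs hs
  have h := LOt_main n X hn hX 6 (by norm_num) f hf hfX hSL c₁ c₂ s hRR hfs hs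
  have e : (6 + 24 : ℝ) = 30 := by norm_num
  rw [e] at h
  exact h

end Pool.Agent.T2H32.AF
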