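import Pool.Agent.T2H32.AF.Stm

set_option autoImplicit false

namespace Pool.Agent.T2H32.AF

open Finset Pool.Agent.R920.CH

namespace MOx

theorem abs_jac_le (a : ℤ) (b : ℕ) : |(jacobiSym a b : ℝ)| ≤ 1 := by
  rcases jacobiSym.trichotomy a b with h | h | h <;> rw [h] <;> norm_num

/-- A power of a sum over `T`. -/
theorem pow_sum (T : Finset ℕ) (m : ℕ) (F : ℕ → ℝ) :
    (∑ p ∈ T, F p) ^ m = ∑ v ∈ Fintype.piFinset (fun _ : Fin m => T), ∏ j, F (v j) := by
  rw [← Finset.prod_univ_sum (fun _ : Fin m => T) (fun _ p => F p), Finset.prod_const,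
    Finset.card_univ, Fintype.card_fin]

theorem log_nonneg (n p : ℕ) (hp : p ∈ OP n) : 0 ≤ Real.log p := by
  unfold OP at hp
  rw [Finset.mem_filter, Finset.mem_Icc] at hp
  exact Real.log_nonneg (by exact_mod_cast hp.1.1)

open Classical in
/-- the sum over the even `v` -/
theorem even_sum (h1 : KH) (h2 : AV) (n k : ℕ) (hk : 1 ≤ k) :
    ∑ v ∈ (Fintype.piFinset (fun _ : Fin (2 * k) => OP n)).filter (fun v => Ev v),
      ∏ j, Real.log (v j) ≤ (2 * Real.exp 1 * k * ∑ p ∈ OP n, Real.log p ^ 2) ^ k := by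
  have hT : (0 : ℝ) < 2 ^ (OP n).card := by positivity
  have e1 : 2 ^ (OP n).card * ∑ v ∈ (Fintype.piFinset (fun _ : Fin (2 * k) => OP n)).filter
      (fun v => Ev v), ∏ j, Real.log (v j) =
      ∑ e ∈ (OP n).powerset, (∑ p ∈ OP n, Real.log p * sg e p) ^ (2 * k) := by
    have e2 : ∀ e ∈ (OP n).powerset, (∑ p ∈ OP n, Real.log p * sg e p) ^ (2 * k) =
        ∑ v ∈ Fintype.piFinset (fun _ : Fin (2 * k) => OP n),
          (∏ j, Real.log (v j)) * ∏ j, sg e (v j) := by
      intro e _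
      rw [pow_sum (OP n) (2 * k) (fun p => Real.log p * sg e p)]
      exact Finset.sum_congr rfl fun v _ => Finset.prod_mul_distrib
    rw [Finset.sum_congr rfl e2, Finset.sum_comm, Finset.mul_sum, Finset.sum_filter]
    refine Finset.sum_congr rfl fun v hv => ?_
    rw [Fintype.mem_piFinset] at hv
    rw [← Finset.mul_sum]
    split_ifs with hev
    · rw [(h2 (2 * k) (OP n) v hv).1 hev]
      ring
    · rw [(h2 (2 * k) (OP n) v hv).2 hev, mul_zero]
  have e3 := h1 k hk (OP n) (fun p => Real.log p)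
  rw [← e1] at e3
  exact le_of_mul_le_mul_left e3 hT

end MOx

open Classical in
/-- The moments. -/
theorem MO_main (h1 : KH) (h2 : AV) (h3 : JS) : MO := by
  intro n k X hk σ hσ
  set V := Fintype.piFinset (fun _ : Fin (2 * k) => OP n) with hV
  have e1 : ∀ f ∈ Icc 1 X, SL n (σ * (f : ℤ)) ^ (2 * k) =
      ∑ v ∈ V, (∏ j, (jacobiSym (σ * (f : ℤ)) (v j) : ℝ)) * ∏ j, Real.log (v j) := by
    intro f _
    unfold SL
    rw [MOx.pow_sum (OP n) (2 * k) (fun p => (jacobiSym (σ * (f : ℤ)) p : ℝ) * Real.log p)]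
    exact Finset.sum_congr rfl fun v _ => Finset.prod_mul_distrib
  rw [Finset.sum_congr rfl e1, Finset.sum_comm]
  have e2 : ∀ v ∈ V, ∑ f ∈ Icc 1 X,
      (∏ j, (jacobiSym (σ * (f : ℤ)) (v j) : ℝ)) * ∏ j, Real.log (v j) ≤
      (if Ev v then (X : ℝ) * ∏ j, Real.log (v j) else 0) +
        (n : ℝ) ^ (2 * k) * ∏ j, Real.log (v j) := by
    intro v hv
    have hv' : ∀ j, v j ∈ OP n := by
      rw [hV, Fintype.mem_piFinset] at hv
      exact hv
    have hL : 0 ≤ ∏ j, Real.log (v j) :=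
      Finset.prod_nonneg fun j _ => MOx.log_nonneg n (v j) (hv' j)
    rw [← Finset.sum_mul]
    split_ifs with hev
    · have hX : ∑ f ∈ Icc 1 X, ∏ j, (jacobiSym (σ * (f : ℤ)) (v j) : ℝ) ≤ X := by
        calc _ ≤ ∑ f ∈ Icc 1 X, (1 : ℝ) := by
              refine Finset.sum_le_sum fun f _ => ?_
              refine (le_abs_self _).trans ?_
              rw [Finset.abs_prod]
              exact Finset.prod_le_one (fun j _ => abs_nonneg _) (fun j _ => MOx.abs_jac_le _ _)
          _ = X := by simp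
      have h5 : 0 ≤ (n : ℝ) ^ (2 * k) * ∏ j, Real.log (v j) := by positivity
      have h6 := mul_le_mul_of_nonneg_right hX hL
      linarith
    · rw [zero_add]
      refine mul_le_mul_of_nonneg_right ?_ hL
      exact (le_abs_self _).trans (h3 n (2 * k) v hv' hev X σ hσ)
  refine (Finset.sum_le_sum e2).trans ?_
  rw [Finset.sum_add_distrib, ← Finset.sum_filter, ← Finset.mul_sum, ← Finset.mul_sum]
  refine add_le_add ?_ ?_
  · exact mul_le_mul_of_nonneg_left (MOx.even_sum h1 h2 n k hk) (Nat.cast_nonneg _)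
  · rw [MOx.pow_sum (OP n) (2 * k) (fun p => Real.log p)]

end Pool.Agent.T2H32.AF
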