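import Pool.Agent.T2H32.AF.Stm

set_option autoImplicit false

/-! The same statements with a parameter `t` instead of `6` (proofs unchanged). -/

namespace Pool.Agent.T2H32.AF

open Finset Pool.Agent.R920.CH

/-- LO with `t` for `6` and `t + 24` for `30`. -/
def LOt : Prop := ∀ (n X : ℕ), 3 ≤ n → n ^ 4 ≤ X → ∀ t : ℝ, 0 ≤ t → ∀ f : ℤ, f ≠ 0 → |f| ≤ X → |SL n f| ≤ t * √(n * Real.log X) →
  ∀ c₁ c₂ s : ℤ, RiemannRoch n (poly2 c₁ c₂) → c₁ ^ 2 - 4 * c₂ = f * s ^ 2 → s ≠ 0 →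
    |(f : ℝ)| * Real.exp (Chebyshev.theta n - (t + 24) * √(n * Real.log X)) ≤ ((|c₁ ^ 2 - 4 * c₂| : ℤ) : ℝ)

/-- UP with `t` for `6` and `t + 24` for `30`. -/
def UPt : Prop := ∀ (n X : ℕ), 3 ≤ n → n ^ 4 ≤ X → ∀ t : ℝ, 0 ≤ t → ∀ f : ℤ, f ≠ 0 → |f| ≤ X → |SL n f| ≤ t * √(n * Real.log X) →
  ∃ c₂ s : ℤ, RiemannRoch n (poly2 0 c₂) ∧ -4 * c₂ = f * s ^ 2 ∧ s ≠ 0 ∧
    ((|-4 * c₂| : ℤ) : ℝ) ≤ |(f : ℝ)| * Real.exp (Chebyshev.theta n + (t + 24) * √(n * Real.log X))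

/-- CT with the parameter `t`. -/
def CTt : Prop := ∀ (n X : ℕ), 3 ≤ n → n ^ 4 ≤ X → ∀ t : ℝ, 0 < t → ∀ σ : ℤ, σ = 1 ∨ σ = -1 →
  (((Icc 1 X).filter fun f : ℕ => t * √(n * Real.log X) < |SL n (σ * (f : ℤ))|).card : ℝ) ≤
    2 * X * (2 / t ^ 2) ^ ⌊Real.log X / (4 * Real.log n)⌋₊

end Pool.Agent.T2H32.AF
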