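import Pool.Agent.T2H32.AF.Stm2

set_option autoImplicit false

namespace Pool.Agent.T2H32.AF

open Finset

namespace CTx

lemma OP_log_nonneg (n : ℕ) : ∀ p ∈ OP n, 0 ≤ Real.log p := fun p _ => Real.log_natCast_nonneg p

lemma sum_log_le (n : ℕ) : ∑ p ∈ OP n, Real.log p ≤ Chebyshev.theta n := by
  unfold Chebyshev.theta OP
  rw [Nat.floor_natCast]
  apply Finset.sum_le_sum_of_subset_of_nonneg
  · intro p hp
    simp only [mem_filter, mem_Icc, mem_Ioc] at hp ⊢
    exact ⟨⟨by omega, hp.1.2⟩, hp.2.1⟩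
  · intro p _ _
    exact Real.log_natCast_nonneg p

lemma theta_le (n : ℕ) : Chebyshev.theta n ≤ 1.3863 * n := by
  have h := Chebyshev.theta_le_log4_mul_x (x := (n : ℝ)) (Nat.cast_nonneg n)
  have h4 : Real.log 4 = 2 * Real.log 2 := by
    rw [show (4 : ℝ) = 2 ^ 2 by norm_num, Real.log_pow]; norm_num
  have h2 := Real.log_two_lt_d9
  have hn : (0 : ℝ) ≤ n := Nat.cast_nonneg n
  nlinarith

lemma sum_sq_le (n : ℕ) : ∑ p ∈ OP n, Real.log p ^ 2 ≤ 1.3863 * n * Real.log n := by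
  have h1 : ∑ p ∈ OP n, Real.log p ^ 2 ≤ ∑ p ∈ OP n, Real.log p * Real.log n := by
    apply Finset.sum_le_sum
    intro p hp
    rw [pow_two]
    simp only [OP, mem_filter, mem_Icc] at hp
    have hp0 : (0 : ℝ) < p := by exact_mod_cast hp.1.1
    exact mul_le_mul_of_nonneg_left (Real.log_le_log hp0 (by exact_mod_cast hp.1.2)) (Real.log_natCast_nonneg p)
  rw [← Finset.sum_mul] at h1
  refine h1.trans ?_
  exact mul_le_mul_of_nonneg_right ((sum_log_le n).trans (theta_le n)) (Real.log_natCast_nonneg n)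

end CTx

open CTx in
theorem CTt_main (h : MO) : CTt := by
  intro n X hn hX t ht σ hσ
  have hn0 : (0 : ℝ) < n := by positivity
  have hn3 : (3 : ℝ) ≤ n := by exact_mod_cast hn
  have hlogn : 1 < Real.log n := by
    have : Real.exp 1 < n := lt_of_lt_of_le Real.exp_one_lt_d9 (by linarith)
    exact (Real.lt_log_iff_exp_lt hn0).2 this
  have hX0 : (0 : ℝ) < X := by
    have : 0 < n ^ 4 := by positivity
    exact_mod_cast lt_of_lt_of_le this hX
  have hlogX : 4 * Real.log n ≤ Real.log X := by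
    have h1 : Real.log ((n : ℝ) ^ 4) ≤ Real.log X :=
      Real.log_le_log (by positivity) (by exact_mod_cast hX)
    rw [Real.log_pow] at h1
    exact_mod_cast h1
  set L := Real.log n with hL
  set K := Real.log X with hK
  set y : ℝ := K / (4 * L) with hy
  have hy1 : 1 ≤ y := by rw [hy, le_div_iff₀ (by positivity)]; linarith
  set k : ℕ := ⌊y⌋₊ with hk
  have hk1 : 1 ≤ k := Nat.le_floor (by exact_mod_cast hy1)
  have hk1r : (1 : ℝ) ≤ k := by exact_mod_cast hk1
  have hky : (k : ℝ) ≤ y := Nat.floor_le (by linarith)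
  have hkL : 4 * k * L ≤ K := by
    have := (le_div_iff₀ (show 0 < 4 * L by positivity)).1 (hy ▸ hky)
    linarith
  have hm := h n k X hk1 σ hσ
  -- the moment
  have hsq := sum_sq_le n
  have hsl : ∑ p ∈ OP n, Real.log p ≤ 1.3863 * n := (sum_log_le n).trans (theta_le n)
  have hsl0 : 0 ≤ ∑ p ∈ OP n, Real.log p := Finset.sum_nonneg (OP_log_nonneg n)
  have hsq0 : 0 ≤ ∑ p ∈ OP n, Real.log p ^ 2 := Finset.sum_nonneg fun p _ => by positivity
  have hA : (2 * Real.exp 1 * k * ∑ p ∈ OP n, Real.log p ^ 2) ^ k ≤ (8 * k * n * L) ^ k := by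
    apply pow_le_pow_left₀ (by positivity)
    have he := Real.exp_one_lt_d9
    calc 2 * Real.exp 1 * k * ∑ p ∈ OP n, Real.log p ^ 2 ≤ 2 * Real.exp 1 * k * (1.3863 * n * L) :=
          mul_le_mul_of_nonneg_left hsq (by positivity)
      _ = (2 * Real.exp 1 * 1.3863) * (k * n * L) := by ring
      _ ≤ 8 * (k * n * L) := mul_le_mul_of_nonneg_right (by linarith) (by positivity)
      _ = 8 * k * n * L := by ring
  have hB : (n : ℝ) ^ (2 * k) * (∑ p ∈ OP n, Real.log p) ^ (2 * k) ≤ X * (8 * k * n * L) ^ k := by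
    have h1 : (∑ p ∈ OP n, Real.log p) ^ (2 * k) ≤ (1.3863 * n) ^ (2 * k) := pow_le_pow_left₀ hsl0 hsl _
    have h2 : (n : ℝ) ^ (2 * k) * (n : ℝ) ^ (2 * k) ≤ X := by
      rw [← pow_add, ← Real.rpow_natCast, ← Real.exp_log hX0]
      rw [Real.rpow_def_of_pos hn0]
      apply Real.exp_le_exp.2
      push_cast
      rw [← hL, ← hK]
      linarith
    calc (n : ℝ) ^ (2 * k) * (∑ p ∈ OP n, Real.log p) ^ (2 * k) ≤ (n : ℝ) ^ (2 * k) * (1.3863 * n) ^ (2 * k) :=
          mul_le_mul_of_nonneg_left h1 (by positivity)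
      _ = ((n : ℝ) ^ (2 * k) * (n : ℝ) ^ (2 * k)) * (1.3863 ^ 2) ^ k := by rw [mul_pow, ← pow_mul]; ring
      _ ≤ X * (8 * k * n * L) ^ k := by
          apply mul_le_mul h2 _ (by positivity) hX0.le
          apply pow_le_pow_left₀ (by norm_num)
          have : (1 : ℝ) ≤ k * n * L := by
            have h3 : (1 : ℝ) ≤ k * n := by nlinarith
            nlinarith
          nlinarith
  have hmom : ∑ f ∈ Icc 1 X, SL n (σ * (f : ℤ)) ^ (2 * k) ≤ 2 * X * (8 * k * n * L) ^ k := by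
    have := mul_le_mul_of_nonneg_left hA hX0.le
    linarith
  -- Markov
  set B := (Icc 1 X).filter fun f : ℕ => t * √(n * K) < |SL n (σ * (f : ℤ))| with hBdef
  have hpos : ∀ f : ℕ, 0 ≤ SL n (σ * (f : ℤ)) ^ (2 * k) := fun f => by
    rw [pow_mul]
    positivity
  have hK0 : 0 < K := by linarith
  have hmark : (B.card : ℝ) * (t ^ 2 * (n * K)) ^ k ≤ ∑ f ∈ Icc 1 X, SL n (σ * (f : ℤ)) ^ (2 * k) := by
    calc (B.card : ℝ) * (t ^ 2 * (n * K)) ^ k = ∑ f ∈ B, (t ^ 2 * (n * K)) ^ k := by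
          rw [Finset.sum_const, nsmul_eq_mul]
      _ ≤ ∑ f ∈ B, SL n (σ * (f : ℤ)) ^ (2 * k) := by
          apply Finset.sum_le_sum
          intro f hf
          have h1 := (Finset.mem_filter.1 hf).2
          rw [pow_mul, ← sq_abs (SL n (σ * (f : ℤ)))]
          apply pow_le_pow_left₀ (by positivity)
          have h2 : t ^ 2 * (n * K) = (t * √(n * K)) ^ 2 := by
            rw [mul_pow, Real.sq_sqrt (by positivity)]
          rw [h2]
          exact pow_le_pow_left₀ (by positivity) h1.le 2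
      _ ≤ ∑ f ∈ Icc 1 X, SL n (σ * (f : ℤ)) ^ (2 * k) :=
          Finset.sum_le_sum_of_subset_of_nonneg (Finset.filter_subset _ _) fun f _ _ => hpos f
  have h8 : (8 * k * n * L) ^ k ≤ (2 * (n * K)) ^ k := by
    apply pow_le_pow_left₀ (by positivity)
    have := mul_le_mul_of_nonneg_left hkL (show 0 ≤ 2 * (n : ℝ) by positivity)
    nlinarith
  have hM0 : 0 < ((n : ℝ) * K) ^ k := by positivity
  have h5 : (B.card : ℝ) * (t ^ 2) ^ k ≤ 2 * X * 2 ^ k := by
    have h6 : (B.card : ℝ) * (t ^ 2) ^ k * ((n : ℝ) * K) ^ k ≤ 2 * X * 2 ^ k * ((n : ℝ) * K) ^ k := by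
      calc (B.card : ℝ) * (t ^ 2) ^ k * ((n : ℝ) * K) ^ k = B.card * (t ^ 2 * (n * K)) ^ k := by
            rw [mul_pow (t ^ 2)]; ring
        _ ≤ 2 * X * (8 * k * n * L) ^ k := hmark.trans hmom
        _ ≤ 2 * X * (2 * (n * K)) ^ k := mul_le_mul_of_nonneg_left h8 (by positivity)
        _ = 2 * X * 2 ^ k * ((n : ℝ) * K) ^ k := by rw [mul_pow 2]; ring
    exact le_of_mul_le_mul_right h6 hM0
  rw [div_pow, ← mul_div_assoc, le_div_iff₀ (by positivity)]
  exact h5

end Pool.Agent.T2H32.AF
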