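import Pool.Agent.T2H32.AF.CT

set_option autoImplicit false

namespace Pool.Agent.T2H32.AF

open Finset Pool.Agent.R920.CH

theorem fin (hCT : CTt) (hLO : LOt) (hUP : UPt) (n X : ℕ) (hn : 3 ≤ n) (hX : n ^ 4 ≤ X) (t : ℝ) (ht : 0 < t) :
    ∃ E : Finset ℤ, (E.card : ℝ) ≤ 4 * X * (2 / t ^ 2) ^ ⌊Real.log X / (4 * Real.log n)⌋₊ ∧
    ∀ f : ℤ, f ≠ 0 → |f| ≤ X → f ∉ E →
    (∀ c₁ c₂ s : ℤ, RiemannRoch n (poly2 c₁ c₂) → c₁ ^ 2 - 4 * c₂ = f * s ^ 2 → s ≠ 0 →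
      |(f : ℝ)| * Real.exp (Chebyshev.theta n - (t + 24) * √(n * Real.log X)) ≤ ((|c₁ ^ 2 - 4 * c₂| : ℤ) : ℝ)) ∧
    (∃ c₂ s : ℤ, RiemannRoch n (poly2 0 c₂) ∧ 0 ^ 2 - 4 * c₂ = f * s ^ 2 ∧ s ≠ 0 ∧
      ((|0 ^ 2 - 4 * c₂| : ℤ) : ℝ) ≤ |(f : ℝ)| * Real.exp (Chebyshev.theta n + (t + 24) * √(n * Real.log X))) := by
  classical
  set B : ℤ → Finset ℕ := fun σ => (Icc 1 X).filter fun f : ℕ => t * √(n * Real.log X) < |SL n (σ * (f : ℤ))| with hB
  refine ⟨(B 1).image (fun f : ℕ => (f : ℤ)) ∪ (B (-1)).image (fun f : ℕ => -(f : ℤ)), ?_, ?_⟩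
  · have h1 := hCT n X hn hX t ht 1 (Or.inl rfl)
    have h2 := hCT n X hn hX t ht (-1) (Or.inr rfl)
    have h3 : ((((B 1).image (fun f : ℕ => (f : ℤ)) ∪ (B (-1)).image (fun f : ℕ => -(f : ℤ))).card : ℕ) : ℝ) ≤
        ((B 1).card : ℝ) + ((B (-1)).card : ℝ) := by
      exact_mod_cast (Finset.card_union_le _ _).trans (Nat.add_le_add Finset.card_image_le Finset.card_image_le)
    have h4 : ((B 1).card : ℝ) + ((B (-1)).card : ℝ) ≤
        2 * X * (2 / t ^ 2) ^ ⌊Real.log X / (4 * Real.log n)⌋₊ +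
        2 * X * (2 / t ^ 2) ^ ⌊Real.log X / (4 * Real.log n)⌋₊ := add_le_add h1 h2
    linarith
  · intro f hf0 hfX hfE
    have hSL : |SL n f| ≤ t * √(n * Real.log X) := by
      by_contra hcon
      rw [not_le] at hcon
      apply hfE
      rw [mem_union, mem_image, mem_image]
      rcases lt_or_gt_of_ne hf0 with h | h
      · right
        refine ⟨f.natAbs, ?_, ?_⟩
        · rw [hB, mem_filter, mem_Icc]
          have e : (-1 : ℤ) * ((f.natAbs : ℕ) : ℤ) = f := by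
            rw [Int.natCast_natAbs, abs_of_neg h]; ring
          refine ⟨⟨Int.natAbs_pos.2 hf0, ?_⟩, ?_⟩
          · have : ((f.natAbs : ℕ) : ℤ) ≤ X := by rwa [Int.natCast_natAbs]
            exact_mod_cast this
          · rw [e]; exact hcon
        · show -((f.natAbs : ℕ) : ℤ) = f
          rw [Int.natCast_natAbs, abs_of_neg h]; ring
      · left
        refine ⟨f.natAbs, ?_, ?_⟩
        · rw [hB, mem_filter, mem_Icc]
          have e : (1 : ℤ) * ((f.natAbs : ℕ) : ℤ) = f := by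
            rw [Int.natCast_natAbs, abs_of_pos h]; ring
          refine ⟨⟨Int.natAbs_pos.2 hf0, ?_⟩, ?_⟩
          · have : ((f.natAbs : ℕ) : ℤ) ≤ X := by rwa [Int.natCast_natAbs]
            exact_mod_cast this
          · rw [e]; exact hcon
        · show ((f.natAbs : ℕ) : ℤ) = f
          rw [Int.natCast_natAbs, abs_of_pos h]
    refine ⟨hLO n X hn hX t ht.le f hf0 hfX hSL, ?_⟩
    obtain ⟨c₂, s, h1, h2, h3, h4⟩ := hUP n X hn hX t ht.le f hf0 hfX hSL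
    have e : (0 : ℤ) ^ 2 - 4 * c₂ = -4 * c₂ := by ring
    refine ⟨c₂, s, h1, ?_, h3, ?_⟩
    · rw [e]; exact h2
    · rw [e]; exact h4

end Pool.Agent.T2H32.AF
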