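import Pool.Agent.T2H43.RR.Final

set_option autoImplicit false

/-!
# Project AF (MP_b01859_ag, hard): the least discriminants allowed by Riemann-Roch in almost all quadratic fields

For all but `X ^ (1 - 1 / (8 log n))` of the integers `f`, `0 < |f| ≤ X`, `X ≥ n ^ 4`, the least `|D|`, `D = f s ^ 2`, allowed by the Riemann-Roch
conditions on `ℙ^n` is `|f| exp (θ(n) + O (√(n log X)))`. Proof: the moments of order `2 k` of `∑_{p ≤ n} (f / p) log p`.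
Every package `P` is a theorem `P_main (dependencies) : P` in the file `Pool/Agent/T2H32/AF/P.lean`; own lemmas in a namespace `Px`.
-/

namespace Pool.Agent.T2H32.AF

open Finset Pool.Agent.R920.CH

/-- the odd primes up to `n` -/
def OP (n : ℕ) : Finset ℕ := (Icc 1 n).filter fun p => p.Prime ∧ p ≠ 2

/-- `∑_{p ≤ n} (f / p) log p` -/
noncomputable def SL (n : ℕ) (f : ℤ) : ℝ := ∑ p ∈ OP n, (jacobiSym f p : ℝ) * Real.log p

/-- the signs given by a set -/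
def sg (e : Finset ℕ) (p : ℕ) : ℝ := if p ∈ e then -1 else 1

/-- all multiplicities are even -/
def Ev {m : ℕ} (v : Fin m → ℕ) : Prop := ∀ p : ℕ, Even (univ.filter fun j => v j = p).card

/-- **KH** (30 min). `theorem KH_main : KH`. Khintchine's inequality. Proof: let `σ² = ∑ a p ^ 2`; if it is `0` all `a p` (`p ∈ T`) are `0`. For `t > 0` and real `x`:
`x^(2k) ≤ (2k)! t^(-2k) cosh (t x)` (series of cosh, `Real.hasSum_cosh` or `Real.pow_div_factorial_le_exp`-like bounds for `|t x|`, `exp |y| ≤ 2 cosh y` gives a factor 2: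
it is important to have no factor 2 or to absorb it: `(2k)! ≤ (2k)^(2k) / 2` for `k ≥ 1`). By `Finset.prod_add` (or `prod_one_add`):
`∑_{e ⊆ T} exp (t ∑ a p sg e p) = ∏ (exp (t a p) + exp (- t a p)) = ∏ 2 cosh (t a p) ≤ 2^|T| exp (t² σ²/2)` (`Real.cosh_le_exp_half_sq`), the same for `-t`. With
`t² = 2k/σ²`: `(2k)! (σ²/(2k))^k e^k ≤ (2k)^k σ^(2k) e^k`. -/
def KH : Prop := ∀ (k : ℕ), 1 ≤ k → ∀ (T : Finset ℕ) (a : ℕ → ℝ),
  ∑ e ∈ T.powerset, (∑ p ∈ T, a p * sg e p) ^ (2 * k) ≤ 2 ^ T.card * (2 * Real.exp 1 * k * ∑ p ∈ T, a p ^ 2) ^ k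

/-- **AV** (25 min). `theorem AV_main : AV`. Proof: `∏ j, sg e (v j) = ∏ p ∈ T, sg e p ^ (multiplicity of p)`
(`Finset.prod_fiberwise_of_maps_to` / `Finset.prod_comp`), so by `Finset.prod_add` the sum over `e` is `∏ p ∈ T, (1 + (-1) ^ (multiplicity of p))`. -/
def AV : Prop := ∀ (m : ℕ) (T : Finset ℕ) (v : Fin m → ℕ), (∀ j, v j ∈ T) →
  (Ev v → ∑ e ∈ T.powerset, ∏ j, sg e (v j) = 2 ^ T.card) ∧ (¬ Ev v → ∑ e ∈ T.powerset, ∏ j, sg e (v j) = 0)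

/-- **JS** (35 min). `theorem JS_main : JS`. Proof: `g f = ∏ j, jacobiSym (σ f) (v j) = jacobiSym (σ f) N`, `N = ∏ j, v j ≤ n ^ m`, is periodic modulo `N` and bounded by `1`, and
there is `u` coprime to `N` with `jacobiSym u N = -1`: let `p` be a prime with odd multiplicity, `N = p ^ (odd) * N'`, `p ∤ N'`; let `u` be a nonresidue modulo `p` and
`u = 1` modulo `N'` (Chinese remainder theorem). So the sum of `g` over a complete system of residues (`ZMod N`, `f ↦ u f` is a bijection) is `0`, and the sum over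
`1, ..., X` is that over at most `N` terms. -/
def JS : Prop := ∀ (n m : ℕ) (v : Fin m → ℕ), (∀ j, v j ∈ OP n) → ¬ Ev v → ∀ (X : ℕ) (σ : ℤ), σ = 1 ∨ σ = -1 →
  |∑ f ∈ Icc 1 X, ∏ j, (jacobiSym (σ * (f : ℤ)) (v j) : ℝ)| ≤ (n : ℝ) ^ m

/-- **MO** (30 min). `theorem MO_main (h1 : KH) (h2 : AV) (h3 : JS) : MO`. Proof: expand the power (`Finset.sum_pow'`/`Finset.sum_pow_eq..`: the sum over `v ∈ Fintype.piFinset (fun _ : Fin (2k) => OP n)` of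
`∏ j, (jacobiSym (σ f) (v j) log (v j))`, see `Finset.prod_univ_sum` with `Finset.prod_const`). For `Ev v` the sum over `f` of the product of the symbols is at most `X`, for the other `v` at most
`n ^ (2k)` in absolute value by JS. The sum of `∏ log (v j)` over all `v` is `(∑ log p) ^ (2k)`, over the `v` with `Ev v` it is, by AV, at most
`2^(-|T|) ∑_e ∑_v ∏ j, log (v j) sg e (v j) = 2^(-|T|) ∑_e (∑ log p sg e p)^(2k)`, `T = OP n`, bounded by KH. -/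
def MO : Prop := ∀ (n k X : ℕ), 1 ≤ k → ∀ σ : ℤ, σ = 1 ∨ σ = -1 →
  ∑ f ∈ Icc 1 X, SL n (σ * (f : ℤ)) ^ (2 * k) ≤
    X * (2 * Real.exp 1 * k * ∑ p ∈ OP n, Real.log p ^ 2) ^ k + (n : ℝ) ^ (2 * k) * (∑ p ∈ OP n, Real.log p) ^ (2 * k)

/-- **CT** (30 min). `theorem CT_main (h : MO) : CT`. Proof: let `k = ⌊log X / (4 log n)⌋₊ ≥ 1`, `n ^ (4 k) ≤ X`, `k ≥ log X / (8 log n)`. `∑ log p ≤ θ(n) ≤ 1.4 n ≤ 2 n`
(`Chebyshev.theta_le_log4_mul_x`), `∑ log p ^ 2 ≤ 1.4 n log n`, `2 · e · 1.4 ≤ 8`. So the moment is at most `X (8 k n log n)^k + 4^k n^(4k) ≤ 2 X (8 k n log n)^k`, and the number of the exceptions at most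
this divided by `(36 n log X)^k ≥ (144 k n log n)^k`, so `≤ 2 X 18^(-k) ≤ (1/2) X e^(-k)`. -/
def CT : Prop := ∀ (n X : ℕ), 3 ≤ n → n ^ 4 ≤ X → ∀ σ : ℤ, σ = 1 ∨ σ = -1 →
  (((Icc 1 X).filter fun f : ℕ => 6 * √(n * Real.log X) < |SL n (σ * (f : ℤ))|).card : ℝ) ≤
    X * Real.exp (-(Real.log X / (8 * Real.log n))) / 2

/-- **LO** (30 min). `theorem LO_main : LO`. Proof: if `n < log X` then `θ(n) ≤ 1.4 n ≤ 30 √(n log X)` and `|D| = |f| s² ≥ |f|`. Otherwise `log |f| ≤ log X ≤ √(n log X)`.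
By `Pool.Agent.T2H43.RR.prod_dvd` the product of `inertS f (n - 1)` divides `s`, so `log |s| ≥ ∑_{inertS f n} log p - log n`; and for `p ∈ OP n`:
`1 - jacobiSym f p - [p ∣ f] = 2 [Inert f p]`, so `2 ∑_{inertS f n} log p = ∑_{OP n} log p - SL n f - ∑_{p ∣ f} log p ≥ θ(n) - log 2 - 6 √(n log X) - log |f|`
(distinct primes dividing `f`: the product divides `f`). The errors: `log 2, 2 log n ≤ 2 √(n log X)`. -/
def LO : Prop := ∀ (n X : ℕ), 3 ≤ n → n ^ 4 ≤ X → ∀ f : ℤ, f ≠ 0 → |f| ≤ X → |SL n f| ≤ 6 * √(n * Real.log X) →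
  ∀ c₁ c₂ s : ℤ, RiemannRoch n (poly2 c₁ c₂) → c₁ ^ 2 - 4 * c₂ = f * s ^ 2 → s ≠ 0 →
    |(f : ℝ)| * Real.exp (Chebyshev.theta n - 30 * √(n * Real.log X)) ≤ ((|c₁ ^ 2 - 4 * c₂| : ℤ) : ℝ)

/-- **UP** (35 min). `theorem UP_main : UP`. Proof: as in `Pool.Agent.T2H43.RR.upper` (which see) let `s = ∏ p ∈ inertS f n ∪ ramS f n, p ^ Nat.log p n`, `c₂ = -(f s²)`, `2 s` instead of `s`:
`RR_of`, `Cond`; `|D| = 4 |f| s²`. If `n < log X`: `log s ≤ ψ(n) ≤ (log 4 + 4) n` (`Chebyshev.psi_le_const_mul_self`; `∑_{p ≤ n} Nat.log p n log p = ψ(n)`, or simply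
`s ∣ lcm`) and `log 4 + 11 n ≤ 30 √(n log X)`. Otherwise `log |f| ≤ log X ≤ √(n log X)`, `Nat.log p n = 1` for `p > √n` and `Nat.log p n ≤ 3 Nat.log p √n` for `p ≤ √n`, so
`log s ≤ ∑_{inertS f n} log p + ∑_{ramS f n} log p + 3 ψ(√n)`, `2 ∑_{inert} log p ≤ θ(n) - SL n f ≤ θ(n) + 6 √(n log X)`, `∑_{ramS f n} log p ≤ log 2 + log |f|`,
`3 ψ(√n) ≤ 17 √n ≤ 8.5 √(n log X)` as `log X ≥ 4 log n ≥ 4`. Together at most `θ(n) + (6 + 2 + 17) √(n log X) + 2 log 2 + log 4 ≤ θ(n) + 30 √(n log X)`. -/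
def UP : Prop := ∀ (n X : ℕ), 3 ≤ n → n ^ 4 ≤ X → ∀ f : ℤ, f ≠ 0 → |f| ≤ X → |SL n f| ≤ 6 * √(n * Real.log X) →
  ∃ c₂ s : ℤ, RiemannRoch n (poly2 0 c₂) ∧ -4 * c₂ = f * s ^ 2 ∧ s ≠ 0 ∧
    ((|-4 * c₂| : ℤ) : ℝ) ≤ |(f : ℝ)| * Real.exp (Chebyshev.theta n + 30 * √(n * Real.log X))

end Pool.Agent.T2H32.AF
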