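import Pool.Agent.T2H32.AF.Stm

set_option autoImplicit false

/-! package UP -/

namespace Pool.Agent.T2H32.AF

open Finset Pool.Agent.R920.CH Pool.Agent.T2H43.RR

namespace UPx

lemma log_X {n X : ℕ} (hn : 3 ≤ n) (hX : n ^ 4 ≤ X) : 4 ≤ Real.log X := by
  have h1 : (1 : ℝ) ≤ Real.log n := by
    rw [Real.le_log_iff_exp_le (by positivity)]
    have h3 : (3 : ℝ) ≤ n := by exact_mod_cast hn
    have := Real.exp_one_lt_d9
    linarith
  have h2 : Real.log ((n : ℝ) ^ 4) ≤ Real.log X := by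
    apply Real.log_le_log (by positivity)
    exact_mod_cast hX
  rw [Real.log_pow] at h2
  push_cast at h2
  linarith

lemma log4 : Real.log 4 ≤ 1.4 := by
  have h : Real.log 4 = 2 * Real.log 2 := by
    rw [show (4 : ℝ) = 2 ^ 2 by norm_num, Real.log_pow]
    push_cast
    ring
  rw [h]
  have := Real.log_two_lt_d9
  linarith

lemma psi_sub (n : ℕ) (hn : 1 ≤ n) :
    Chebyshev.psi n - Chebyshev.theta n ≤ 17 * √(n : ℝ) := by
  have hx : (1 : ℝ) ≤ (n : ℝ) := by exact_mod_cast hn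
  have key : ∀ k : ℝ, 2 ≤ k → Chebyshev.psi ((n : ℝ) ^ (1 / k)) ≤ (Real.log 4 + 4) * √(n : ℝ) := by
    intro k hk
    refine (Chebyshev.psi_le_const_mul_self (by positivity)).trans ?_
    have hl : 0 ≤ Real.log 4 + 4 := by positivity
    refine mul_le_mul_of_nonneg_left ?_ hl
    rw [Real.sqrt_eq_rpow]
    exact Real.rpow_le_rpow_of_exponent_le hx (one_div_le_one_div_of_le (by norm_num) hk)
  have h := Chebyshev.psi_sub_theta_le_psi_add_psi_add_psi (n : ℝ)
  have h2 := key 2 le_rfl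
  have h3 := key 3 (by norm_num)
  have h5 := key 5 (by norm_num)
  have h4 := log4
  have hs : 0 ≤ √(n : ℝ) := Real.sqrt_nonneg _
  nlinarith

lemma ram_sum (f : ℤ) (hf : f ≠ 0) (n : ℕ) :
    ∑ p ∈ ramS f n, Real.log p ≤ Real.log 2 + Real.log |(f : ℝ)| := by
  classical
  have hsub : ramS f n ⊆ {2} ∪ f.natAbs.primeFactors := by
    intro p hp
    simp only [ramS, mem_filter] at hp
    rw [mem_union, mem_singleton, Nat.mem_primeFactors]
    rcases hp.2.2 with h | h
    · exact Or.inl h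
    · exact Or.inr ⟨hp.2.1, Int.natCast_dvd.mp h, Int.natAbs_ne_zero.mpr hf⟩
  have hnn : ∀ p : ℕ, 0 ≤ Real.log p := fun p => Real.log_natCast_nonneg p
  have h1 : ∑ p ∈ ramS f n, Real.log p ≤ ∑ p ∈ {2} ∪ f.natAbs.primeFactors, Real.log p :=
    sum_le_sum_of_subset_of_nonneg hsub fun p _ _ => hnn p
  have h2 : ∑ p ∈ {2} ∪ f.natAbs.primeFactors, Real.log (p : ℝ) +
      ∑ p ∈ {2} ∩ f.natAbs.primeFactors, Real.log (p : ℝ) =
      ∑ p ∈ ({2} : Finset ℕ), Real.log (p : ℝ) + ∑ p ∈ f.natAbs.primeFactors, Real.log (p : ℝ) :=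
    sum_union_inter
  have h3 : 0 ≤ ∑ p ∈ {2} ∩ f.natAbs.primeFactors, Real.log (p : ℝ) :=
    sum_nonneg fun p _ => hnn p
  have h4 : ∑ p ∈ f.natAbs.primeFactors, Real.log (p : ℝ) ≤ Real.log |(f : ℝ)| := by
    rw [← Real.log_prod (fun p hp => by
      have := (Nat.prime_of_mem_primeFactors hp).pos
      positivity)]
    apply Real.log_le_log
    · exact prod_pos fun p hp => by
        have := (Nat.prime_of_mem_primeFactors hp).pos
        positivity
    · have h5 : ∏ p ∈ f.natAbs.primeFactors, p ≤ f.natAbs :=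
        Nat.le_of_dvd (Int.natAbs_pos.mpr hf) (Nat.prod_primeFactors_dvd _)
      have h6 : (((∏ p ∈ f.natAbs.primeFactors, p : ℕ)) : ℝ) ≤ ((f.natAbs : ℕ) : ℝ) := by
        exact_mod_cast h5
      rw [Nat.cast_natAbs, Int.cast_abs] at h6
      rw [← Nat.cast_prod]
      exact h6
  rw [sum_singleton] at h2
  push_cast at h2
  linarith

lemma jac_inert {f : ℤ} {p : ℕ} (hp : p.Prime) (h : ¬ ∃ t : ℤ, (p : ℤ) ∣ f - t ^ 2) :
    jacobiSym f p = -1 := by
  have := Fact.mk hp
  rw [← jacobiSym.legendreSym.to_jacobiSym, legendreSym.eq_neg_one_iff]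
  rintro ⟨r, hr⟩
  apply h
  refine ⟨(r.val : ℤ), ?_⟩
  rw [← ZMod.intCast_zmod_eq_zero_iff_dvd]
  push_cast
  rw [ZMod.natCast_zmod_val, hr]
  ring

lemma jac_le (f : ℤ) (p : ℕ) : (jacobiSym f p : ℝ) ≤ 1 := by
  rcases jacobiSym.trichotomy f p with h | h | h <;> rw [h] <;> norm_num

lemma inert_sum (f : ℤ) (n : ℕ) :
    2 * ∑ p ∈ inertS f n, Real.log p ≤ Chebyshev.theta n - SL n f := by
  classical
  have hsub : inertS f n ⊆ OP n := by
    intro p hp
    simp only [inertS, Inert, mem_filter] at hp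
    simp only [OP, mem_filter]
    exact ⟨hp.1, hp.2.1, hp.2.2.1⟩
  have hnn : ∀ p : ℕ, 0 ≤ Real.log p := fun p => Real.log_natCast_nonneg p
  have h1 : 2 * ∑ p ∈ inertS f n, Real.log p ≤
      ∑ p ∈ OP n, (1 - (jacobiSym f p : ℝ)) * Real.log p := by
    rw [mul_sum]
    have h2 : ∑ p ∈ inertS f n, 2 * Real.log (p : ℝ) =
        ∑ p ∈ inertS f n, (1 - (jacobiSym f p : ℝ)) * Real.log p := by
      refine sum_congr rfl fun p hp => ?_
      simp only [inertS, Inert, mem_filter] at hp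
      rw [jac_inert hp.2.1 hp.2.2.2.2]
      push_cast
      ring
    rw [h2]
    refine sum_le_sum_of_subset_of_nonneg hsub fun p _ _ => ?_
    exact mul_nonneg (by linarith [jac_le f p]) (hnn p)
  have h3 : ∑ p ∈ OP n, (1 - (jacobiSym f p : ℝ)) * Real.log p =
      ∑ p ∈ OP n, Real.log (p : ℝ) - SL n f := by
    unfold SL
    rw [← sum_sub_distrib]
    refine sum_congr rfl fun p _ => ?_
    ring
  have h4 : ∑ p ∈ OP n, Real.log (p : ℝ) ≤ Chebyshev.theta n := by
    rw [Chebyshev.theta_eq_sum_primesLE_log, Nat.primesLE_eq_filter_Icc_one]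
    refine sum_le_sum_of_subset_of_nonneg ?_ fun p _ _ => hnn p
    intro p hp
    simp only [OP, mem_filter] at hp ⊢
    exact ⟨hp.1, hp.2.1⟩
  linarith

end UPx

open UPx in
theorem UP_main : UP := by
  classical
  intro n X hn hX f hf hfX hSL
  have hn1 : 1 ≤ n := by omega
  have hL := log_X hn hX
  set L : ℝ := Real.log X with hLdef
  set R : ℝ := √((n : ℝ) * L) with hR
  have hn3 : (3 : ℝ) ≤ n := by exact_mod_cast hn
  have hR0 : 0 ≤ R := Real.sqrt_nonneg _
  have hR2 : R ^ 2 = n * L := Real.sq_sqrt (by positivity)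
  have hRn : 2 * √(n : ℝ) ≤ R := by
    have h1 : √(n : ℝ) ^ 2 = n := Real.sq_sqrt (by positivity)
    have h2 : (2 * √(n : ℝ)) ^ 2 ≤ R ^ 2 := by
      rw [mul_pow, h1, hR2]
      nlinarith
    exact le_of_sq_le_sq h2 hR0
  have hR3 : 3 ≤ R := by
    have h2 : (3 : ℝ) ^ 2 ≤ R ^ 2 := by
      rw [hR2]
      nlinarith
    exact le_of_sq_le_sq h2 hR0
  have hf1 : (1 : ℝ) ≤ |(f : ℝ)| := by
    have : (1 : ℤ) ≤ |f| := Int.one_le_abs hf
    exact_mod_cast this
  have hlf : Real.log |(f : ℝ)| ≤ L := by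
    apply Real.log_le_log (by linarith)
    exact_mod_cast hfX
  set S := inertS f n ∪ ramS f n with hS
  set s : ℕ := ∏ p ∈ S, p ^ (Nat.log p n) with hs
  have hSp : ∀ p ∈ S, p.Prime ∧ p ≤ n := by
    intro p hp
    simp only [hS, inertS, ramS, mem_union, mem_filter, mem_Icc] at hp
    rcases hp with h | h
    · exact ⟨h.2.1, h.1.2⟩
    · exact ⟨h.2.1, h.1.2⟩
  have hs0 : 0 < s := prod_pos fun p hp => pow_pos (hSp p hp).1.pos _
  have hcond : Cond n f (s : ℤ) := by
    intro p hp hpn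
    by_cases hsp : p ≠ 2 ∧ ¬ (p : ℤ) ∣ f ∧ ∃ t : ℤ, (p : ℤ) ∣ f - t ^ 2
    · exact Or.inr hsp
    · left
      intro r hr
      have hpS : p ∈ S := by
        simp only [hS, inertS, ramS, mem_union, mem_filter, mem_Icc, Inert]
        have := hp.one_le
        tauto
      have h2 : p ^ r ∣ s := by
        refine dvd_trans (pow_dvd_pow p ?_) (dvd_prod_of_mem _ hpS)
        exact Nat.le_log_of_pow_le hp.one_lt hr
      exact_mod_cast h2
  have hnn : ∀ p : ℕ, 0 ≤ Real.log p := fun p => Real.log_natCast_nonneg p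
  have hlogs : Real.log s = ∑ p ∈ S, (Nat.log p n : ℝ) * Real.log p := by
    rw [hs, Nat.cast_prod, Real.log_prod]
    · refine sum_congr rfl fun p _ => ?_
      push_cast
      rw [Real.log_pow]
    · intro p hp
      have := (hSp p hp).1.pos
      positivity
  have hSsub : S ⊆ Nat.primesLE n := by
    intro p hp
    rw [Nat.primesLE_eq_filter_Icc_one, mem_filter, mem_Icc]
    exact ⟨⟨(hSp p hp).1.one_le, (hSp p hp).2⟩, (hSp p hp).1⟩
  have hpsi := Chebyshev.psi_eq_sum_mul_log_prime n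
  have htheta := Chebyshev.theta_eq_sum_primesLE_log n
  have hth0 : 0 ≤ Chebyshev.theta n := Chebyshev.theta_nonneg _
  have h4 := log4
  have hl2 : Real.log 2 ≤ 0.7 := by
    have := Real.log_two_lt_d9
    linarith
  -- the bound for the logarithm
  have main : Real.log 4 + 2 * Real.log s ≤ Chebyshev.theta n + 30 * R := by
    rcases le_or_gt L n with hc | hc
    · have hLR : L ≤ R := by
        have h2 : L ^ 2 ≤ R ^ 2 := by
          rw [hR2]
          nlinarith
        exact le_of_sq_le_sq h2 hR0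
      have e1 : Real.log s = ∑ p ∈ S, Real.log (p : ℝ) +
          ∑ p ∈ S, ((Nat.log p n : ℝ) - 1) * Real.log p := by
        rw [hlogs, ← sum_add_distrib]
        refine sum_congr rfl fun p _ => ?_
        ring
      have e2 : ∑ p ∈ S, ((Nat.log p n : ℝ) - 1) * Real.log p ≤
          Chebyshev.psi n - Chebyshev.theta n := by
        rw [hpsi, htheta, ← sum_sub_distrib]
        have e3 : ∑ p ∈ Nat.primesLE n, ((Nat.log p n : ℝ) * Real.log p - Real.log p) =
            ∑ p ∈ Nat.primesLE n, ((Nat.log p n : ℝ) - 1) * Real.log p := by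
          refine sum_congr rfl fun p _ => ?_
          ring
        rw [e3]
        refine sum_le_sum_of_subset_of_nonneg hSsub fun p hp _ => ?_
        rw [Nat.primesLE_eq_filter_Icc_one, mem_filter, mem_Icc] at hp
        refine mul_nonneg ?_ (hnn p)
        have h5 : 1 ≤ Nat.log p n := by
          apply Nat.le_log_of_pow_le hp.2.one_lt
          rw [pow_one]
          exact hp.1.2
        have h6 : (1 : ℝ) ≤ (Nat.log p n : ℝ) := by exact_mod_cast h5
        linarith
      have e4 : ∑ p ∈ S, Real.log (p : ℝ) ≤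
          ∑ p ∈ inertS f n, Real.log (p : ℝ) + ∑ p ∈ ramS f n, Real.log (p : ℝ) := by
        have h5 : ∑ p ∈ S, Real.log (p : ℝ) + ∑ p ∈ inertS f n ∩ ramS f n, Real.log (p : ℝ) =
            ∑ p ∈ inertS f n, Real.log (p : ℝ) + ∑ p ∈ ramS f n, Real.log (p : ℝ) :=
          sum_union_inter
        have h6 : 0 ≤ ∑ p ∈ inertS f n ∩ ramS f n, Real.log (p : ℝ) := sum_nonneg fun p _ => hnn p
        linarith
      have e5 := inert_sum f n
      have e6 := ram_sum f hf n
      have e7 := psi_sub n hn1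
      have e8 := (abs_le.mp hSL).1
      linarith
    · have hnR : (n : ℝ) ≤ R := by
        have h2 : (n : ℝ) ^ 2 ≤ R ^ 2 := by
          rw [hR2]
          nlinarith
        exact le_of_sq_le_sq h2 hR0
      have e1 : Real.log s ≤ Chebyshev.psi n := by
        rw [hlogs, hpsi]
        exact sum_le_sum_of_subset_of_nonneg hSsub fun p _ _ =>
          mul_nonneg (Nat.cast_nonneg _) (hnn p)
      have e2 := Chebyshev.psi_le_const_mul_self (x := (n : ℝ)) (by positivity)
      nlinarith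
  refine ⟨-(f * (s : ℤ) ^ 2), 2 * s, RR_of n f s hcond, by ring, ?_, ?_⟩
  · have : (0 : ℤ) < s := by exact_mod_cast hs0
    positivity
  · have e : ((|-4 * -(f * (s : ℤ) ^ 2)| : ℤ) : ℝ) = |(f : ℝ)| * (4 * (s : ℝ) ^ 2) := by
      have e1 : (-4 * -(f * (s : ℤ) ^ 2)) = (4 * f) * (s : ℤ) ^ 2 := by ring
      rw [e1, abs_mul, abs_mul, abs_pow]
      push_cast
      norm_num
      ring
    rw [e]
    refine mul_le_mul_of_nonneg_left ?_ (abs_nonneg _)
    have hsr : (0 : ℝ) < s := by exact_mod_cast hs0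
    have e2 : 4 * (s : ℝ) ^ 2 = Real.exp (Real.log 4 + 2 * Real.log s) := by
      rw [Real.exp_add, Real.exp_log (by norm_num), mul_comm 2 (Real.log s), Real.exp_mul,
        Real.exp_log hsr]
      norm_num
    rw [e2]
    exact Real.exp_le_exp.2 main

end Pool.Agent.T2H32.AF
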